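import Pool.Agent.Q18.KZ.S4

/-!
# KZ-END (project KZ of helper18): the frozen negation from FIN and ENV
-/

set_option autoImplicit false

namespace Pool.Agent.Q177.KZ

open Finset Filter Topology MeasureTheory
open scoped Classical
open Pool.Agent.Q18.KZ

theorem t_END (hFIN : S_FIN) (hENV : S_ENV) : S_END := by
  intro hm1 hm2 hm3 hall
  obtain ⟨f, c, C, hc, hC, hf1, hmul, hS⟩ := hFIN (hENV hm1 hm2 hm3)
  have hnorm : ∀ N : ℕ, ‖∑ n ∈ Finset.Icc 1 N, ((f n : ℝ) : ℂ)‖ = |∑ n ∈ Icc 1 N, f n| := by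
    intro N
    rw [← Complex.ofReal_sum, Complex.norm_real, Real.norm_eq_abs]
  have hrange : ∀ N : ℕ, ∑ n ∈ Finset.range N, ((f (n + 1) : ℝ) : ℂ) = ∑ n ∈ Finset.Icc 1 N, ((f n : ℝ) : ℂ) := by
    intro N
    rw [Finset.range_eq_Ico, Finset.sum_Ico_add' (fun n => ((f n : ℝ) : ℂ)) 0 N 1]
    rfl
  have hT : Tendsto (fun N : ℕ => ∑ n ∈ Finset.range N, ((f (n + 1) : ℝ) : ℂ)) atTop (𝓝 0) := by
    rw [tendsto_zero_iff_norm_tendsto_zero]
    have h1 : Tendsto (fun N : ℕ => C * (N : ℝ) ^ (-(1 / 2 : ℝ) - c)) atTop (𝓝 0) := by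
      have h2 : Tendsto (fun N : ℕ => ((N : ℝ)) ^ (-(1 / 2 + c))) atTop (𝓝 0) :=
        (tendsto_rpow_neg_atTop (by linarith : (0 : ℝ) < 1 / 2 + c)).comp tendsto_natCast_atTop_atTop
      have h3 := h2.const_mul C
      rw [mul_zero] at h3
      refine h3.congr (fun N => ?_)
      rw [show -(1 / 2 + c) = -(1 / 2 : ℝ) - c by ring]
    refine squeeze_zero' (Eventually.of_forall fun N => norm_nonneg _) ?_ h1
    filter_upwards [eventually_ge_atTop 1] with N hN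
    rw [hrange N, hnorm N]
    exact hS N hN
  obtain ⟨c', hc', hinf⟩ := hall (fun n => ((f n : ℝ) : ℂ)) (by simp [hf1])
    (fun m n hm hn => by
      rw [hmul m n hm hn]
      push_cast
      rfl) hT
  have h4 : Tendsto (fun N : ℕ => C * (N : ℝ) ^ (-c)) atTop (𝓝 0) := by
    have h2 : Tendsto (fun N : ℕ => ((N : ℝ)) ^ (-c)) atTop (𝓝 0) :=
      (tendsto_rpow_neg_atTop hc).comp tendsto_natCast_atTop_atTop
    have h3 := h2.const_mul C
    rwa [mul_zero] at h3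
  obtain ⟨M, hM⟩ := eventually_atTop.1 (h4.eventually (gt_mem_nhds hc'))
  obtain ⟨N, hNM, hN0, hN⟩ := hinf M
  have h5 := hM N hNM
  have h6 := hS N hN0
  rw [hnorm N] at hN
  have hNpos : (0 : ℝ) < (N : ℝ) := by exact_mod_cast hN0
  have hsq : (0 : ℝ) < Real.sqrt (N : ℝ) := Real.sqrt_pos.2 hNpos
  have h7 : c' / Real.sqrt (N : ℝ) ≤ C * (N : ℝ) ^ (-(1 / 2 : ℝ) - c) := hN.trans h6
  rw [div_le_iff₀ hsq] at h7
  have h8 : C * (N : ℝ) ^ (-(1 / 2 : ℝ) - c) * Real.sqrt (N : ℝ) = C * (N : ℝ) ^ (-c) := by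
    rw [Real.sqrt_eq_rpow, mul_assoc, ← Real.rpow_add hNpos]
    congr 2
    ring
  rw [h8] at h7
  linarith

end Pool.Agent.Q177.KZ
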