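import Pool.Agent.Q18.KZ.S4

/-!
# KZ-PRT (project KZ of helper18): partners by the pigeonhole principle
-/

set_option autoImplicit false

namespace Pool.Agent.Q177.KZ

open Finset Filter Topology MeasureTheory
open scoped Classical
open Pool.Agent.W76.MO (hh nc cell lp Rough)
open Pool.Agent.Q18.KZ

/-- a map from `P` to `G` with fibres of size at most `B` -/
theorem exists_map (P G : Finset ℕ) (B : ℕ) (h : P.card ≤ B * G.card) :
    ∃ f : ℕ → ℕ, (∀ x ∈ P, f x ∈ G) ∧ ∀ y : ℕ, (P.filter (fun x => f x = y)).card ≤ B := by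
  rcases P.eq_empty_or_nonempty with rfl | hP
  · exact ⟨fun x => x, by simp, by simp⟩
  have hG : 0 < G.card := by
    rcases Nat.eq_zero_or_pos G.card with h0 | h0
    · rw [h0, mul_zero] at h
      have := hP.card_pos
      omega
    · exact h0
  have e := G.equivFin
  have e' := P.equivFin
  refine ⟨fun x => if hx : x ∈ P then
    (e.symm ⟨(e' ⟨x, hx⟩ : ℕ) % G.card, Nat.mod_lt _ hG⟩ : ℕ) else 0, ?_, ?_⟩
  · intro x hx
    simp only [hx, dif_pos]
    exact Subtype.coe_prop _
  · intro y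
    have key : (P.filter (fun x => (if hx : x ∈ P then
        (e.symm ⟨(e' ⟨x, hx⟩ : ℕ) % G.card, Nat.mod_lt _ hG⟩ : ℕ) else 0) = y)).card ≤
        (Finset.range B).card := by
      refine Finset.card_le_card_of_injOn
        (fun x => if hx : x ∈ P then (e' ⟨x, hx⟩ : ℕ) / G.card else 0) ?_ ?_
      · intro x hx
        have hxP : x ∈ P := (Finset.mem_filter.1 hx).1
        simp only [hxP, dif_pos, Finset.coe_range, Set.mem_Iio]
        have h1 : (e' ⟨x, hxP⟩ : ℕ) < P.card := (e' ⟨x, hxP⟩).2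
        exact Nat.div_lt_of_lt_mul (lt_of_lt_of_le h1 (by rw [mul_comm]; exact h))
      · intro x hx x' hx' hxx'
        have hxP : x ∈ P := (Finset.mem_filter.1 hx).1
        have hxP' : x' ∈ P := (Finset.mem_filter.1 hx').1
        have a1 := (Finset.mem_filter.1 hx).2
        have a2 := (Finset.mem_filter.1 hx').2
        simp only [hxP, hxP', dif_pos] at hxx' a1 a2
        have h3 : (e.symm ⟨(e' ⟨x, hxP⟩ : ℕ) % G.card, Nat.mod_lt _ hG⟩ : ℕ) =
          (e.symm ⟨(e' ⟨x', hxP'⟩ : ℕ) % G.card, Nat.mod_lt _ hG⟩ : ℕ) := a1.trans a2.symm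
        have h4 := e.symm.injective (Subtype.ext h3)
        have h5 : (e' ⟨x, hxP⟩ : ℕ) % G.card = (e' ⟨x', hxP'⟩ : ℕ) % G.card := by
          simpa using h4
        have h6 : (e' ⟨x, hxP⟩ : ℕ) = (e' ⟨x', hxP'⟩ : ℕ) := by
          rw [← Nat.div_add_mod (e' ⟨x, hxP⟩ : ℕ) G.card, ← Nat.div_add_mod (e' ⟨x', hxP'⟩ : ℕ) G.card, h5, hxx']
        have h7 := e'.injective (Fin.ext h6)
        exact congrArg Subtype.val h7
    simpa using key

theorem t_PRT (hBLC : S_BLC) : S_PRT := by
  intro δ c₁ cU CB i hδ hδ' hc₁ hcU hcUc hCB hi hnp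
  obtain ⟨b1, b2, b3, -, b5, b6⟩ := hBLC δ i hδ hδ' hi
  set h := hh δ i with hh_def
  set N := nc δ i with hN
  have hi0 : (0 : ℝ) < i := by
    have : (1000 : ℝ) ≤ i := by exact_mod_cast hi
    linarith
  have hhpos : (0 : ℝ) < (h : ℝ) := by
    rw [hh_def]; unfold hh; positivity
  -- the number of cells in a block is positive
  have hHBpos : (0 : ℝ) < (HB i : ℝ) := by unfold HB; positivity
  set r := HB i / h with hr
  have hrpos : (0 : ℝ) < (r : ℝ) := by
    by_contra hcon
    have : (r : ℝ) = 0 := le_antisymm (not_lt.1 hcon) (Nat.cast_nonneg _)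
    rw [this, zero_mul] at b3
    linarith
  set Bd : ℕ := ⌈2 * CB / c₁⌉₊ with hBd
  let P : ℕ → Finset ℕ := fun b => (range N).filter (fun k => bl δ i k = b ∧ np δ i k < cU * h / i)
  let G : ℕ → Finset ℕ := fun b => (range N).filter (fun k => bl δ i k = b ∧ ¬ np δ i k < cU * h / i)
  have hcell : ∀ b : ℕ, ((P b).card : ℝ) + ((G b).card : ℝ) =
      (((range N).filter (fun k => bl δ i k = b)).card : ℝ) := by
    intro b
    rw [← Finset.card_filter_add_card_filter_not (s := (range N).filter (fun k => bl δ i k = b))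
      (fun k => np δ i k < cU * h / i)]
    push_cast
    simp only [P, G, Finset.filter_filter]
  have hmain : ∀ b : ℕ, b < 2 ^ i / HB i → c₁ * HB i / i ≤ nb i b → (P b).card ≤ Bd * (G b).card := by
    intro b hb hrich
    have e1 : nb i b = ∑ k ∈ P b, np δ i k + ∑ k ∈ G b, np δ i k := by
      rw [b6 b hb, ← Finset.sum_filter_add_sum_filter_not ((range N).filter (fun k => bl δ i k = b))
        (fun k => np δ i k < cU * h / i)]
      simp only [P, G, Finset.filter_filter]
    have e2 : ∑ k ∈ P b, np δ i k ≤ (P b).card * (cU * h / i) := by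
      rw [← nsmul_eq_mul]
      refine Finset.sum_le_card_nsmul _ _ _ (fun k hk => ?_)
      exact (Finset.mem_filter.1 hk).2.2.le
    have e3 : ∑ k ∈ G b, np δ i k ≤ (G b).card * (CB * h / i) := by
      rw [← nsmul_eq_mul]
      refine Finset.sum_le_card_nsmul _ _ _ (fun k hk => ?_)
      exact hnp k (Finset.mem_range.1 (Finset.mem_filter.1 hk).1)
    have e4 : ((P b).card : ℝ) + ((G b).card : ℝ) = r := by
      rw [hcell b, b2 b hb]
    have e5 : c₁ * r * (h / i) ≤ (P b).card * (cU * (h / i)) + (G b).card * (CB * (h / i)) := by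
      calc c₁ * r * (h / i) = c₁ * HB i / i := by rw [← b3]; ring
        _ ≤ nb i b := hrich
        _ ≤ (P b).card * (cU * h / i) + (G b).card * (CB * h / i) := by rw [e1]; linarith
        _ = _ := by ring
    have hq : (0 : ℝ) < h / i := div_pos hhpos hi0
    have e6 : c₁ * r ≤ (P b).card * cU + (G b).card * CB := by
      have : c₁ * r * (h / i) ≤ ((P b).card * cU + (G b).card * CB) * (h / i) := by
        calc _ ≤ _ := e5
          _ = _ := by ring
      exact le_of_mul_le_mul_right this hq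
    have e7 : ((P b).card : ℝ) ≤ r := by
      have : (0 : ℝ) ≤ (G b).card := Nat.cast_nonneg _
      linarith
    have e8 : (3 / 4) * (c₁ * r) ≤ (G b).card * CB := by
      have : ((P b).card : ℝ) * cU ≤ r * (c₁ / 4) :=
        mul_le_mul e7 hcUc hcU.le hrpos.le
      linarith
    have e9 : ((P b).card : ℝ) ≤ (2 * CB / c₁) * (G b).card := by
      have : c₁ * ((P b).card : ℝ) ≤ 2 * CB * (G b).card := by
        have h1 : c₁ * ((P b).card : ℝ) ≤ c₁ * r := mul_le_mul_of_nonneg_left e7 hc₁.le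
        have h2 : (0 : ℝ) ≤ (G b).card * CB := by positivity
        linarith
      rw [div_mul_eq_mul_div, le_div_iff₀ hc₁]
      linarith
    have e10 : ((P b).card : ℝ) ≤ ((Bd * (G b).card : ℕ) : ℝ) := by
      push_cast
      refine e9.trans (mul_le_mul_of_nonneg_right (Nat.le_ceil _) (Nat.cast_nonneg _))
    exact_mod_cast e10
  -- choose the maps
  have hex : ∀ b : ℕ, ∃ f : ℕ → ℕ, (b < 2 ^ i / HB i → c₁ * HB i / i ≤ nb i b →
      (∀ x ∈ P b, f x ∈ G b) ∧ ∀ y : ℕ, ((P b).filter (fun x => f x = y)).card ≤ Bd) := by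
    intro b
    by_cases hb : b < 2 ^ i / HB i ∧ c₁ * HB i / i ≤ nb i b
    · obtain ⟨f, h1, h2⟩ := exists_map (P b) (G b) Bd (hmain b hb.1 hb.2)
      exact ⟨f, fun _ _ => ⟨h1, h2⟩⟩
    · exact ⟨fun x => x, fun h1 h2 => absurd ⟨h1, h2⟩ hb⟩
  choose f hf using hex
  refine ⟨fun k => f (bl δ i k) k, ?_, ?_⟩
  · intro k hk hpoor hrich
    have hmem : k ∈ P (bl δ i k) := Finset.mem_filter.2 ⟨Finset.mem_range.2 hk, rfl, hpoor⟩
    have h1 := (hf (bl δ i k) (b1 k hk) hrich).1 k hmem
    obtain ⟨g1, g2, g3⟩ := Finset.mem_filter.1 h1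
    exact ⟨Finset.mem_range.1 g1, not_lt.1 g3, b5 _ _ g2.symm⟩
  · intro k'
    by_cases hb : bl δ i k' < 2 ^ i / HB i ∧ c₁ * HB i / i ≤ nb i (bl δ i k')
    · refine le_trans (Finset.card_le_card ?_)
        (((hf (bl δ i k') hb.1 hb.2).2 k').trans (Nat.le_succ _))
      intro k hk
      obtain ⟨g1, g2, g3, g4'⟩ := Finset.mem_filter.1 hk
      have g4 : f (bl δ i k) k = k' := g4'
      have hkN := Finset.mem_range.1 g1
      have hmem : k ∈ P (bl δ i k) := Finset.mem_filter.2 ⟨g1, rfl, g2⟩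
      have h1 := (hf (bl δ i k) (b1 k hkN) g3).1 k hmem
      rw [g4] at h1
      have h2 : bl δ i k' = bl δ i k := (Finset.mem_filter.1 h1).2.1
      rw [h2]
      exact Finset.mem_filter.2 ⟨hmem, g4⟩
    · have : (range N).filter (fun k => np δ i k < cU * h / i ∧ c₁ * HB i / i ≤ nb i (bl δ i k) ∧
          f (bl δ i k) k = k') = ∅ := by
        refine Finset.filter_eq_empty_iff.2 (fun k hk hcon => hb ?_)
        obtain ⟨g2, g3, g4⟩ := hcon
        have hkN := Finset.mem_range.1 hk
        have hmem : k ∈ P (bl δ i k) := Finset.mem_filter.2 ⟨hk, rfl, g2⟩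
        have h1 := (hf (bl δ i k) (b1 k hkN) g3).1 k hmem
        rw [g4] at h1
        have h2 : bl δ i k' = bl δ i k := (Finset.mem_filter.1 h1).2.1
        rw [h2]
        exact ⟨b1 k hkN, g3⟩
      rw [this]
      simp

end Pool.Agent.Q177.KZ
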